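import Pool.Agent.H.MP_ebdc6e_an.A

set_option autoImplicit false
open Filter Topology MeasureTheory

namespace Pool.Agent.Results.MP_ebdc6e_an.No

noncomputable def Var {n : ℕ} (f : (Fin n → Bool) → ℝ) : ℝ :=
  (∑ x, (f x - (∑ y, f y) / 2 ^ n) ^ 2) / 2 ^ n

noncomputable def Inf {n : ℕ} (f : (Fin n → Bool) → ℝ) (i : Fin n) : ℝ :=
  (Nat.card {x // f x ≠ f (Function.update x i (!x i))} : ℝ) / 2 ^ n

theorem result : ∃ (n : ℕ) (f : (Fin n → Bool) → ℝ) (Ω : Type) (_ : MeasurableSpace Ω)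
    (P : Measure Ω) (X : ℕ → Ω → Fin n → ℝ) (hX : ∀ t, StronglyMeasurable (X t))
    (Y : Ω → Fin n → Bool) (τ : Ω → ℕ) (A : (Fin n → ℝ) → ℝ),
    (∀ x, f x = 1 ∨ f x = -1) ∧ IsProbabilityMeasure P ∧
    (∀ t ω i, |X t ω i| ≤ 1) ∧ (∀ ω, X 0 ω = 0) ∧
    (∀ ω, Tendsto (fun t => X t ω) atTop (𝓝 fun i => if Y ω i then 1 else -1)) ∧
    Measurable Y ∧ (∀ y, P.real {ω | Y ω = y} = 1 / 2 ^ n) ∧
    (∀ S : Finset (Fin n),
      Martingale (fun t ω => ∏ i ∈ S, X t ω i) (Filtration.natural X hX) P) ∧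
    IsStoppingTime (Filtration.natural X hX) (fun ω => (τ ω : WithTop ℕ)) ∧
    (∀ ω, A (X (τ ω) ω) = f (Y ω)) ∧
    (∀ i, Integrable (fun ω => X (τ ω) ω i ^ 2) P) ∧
    ∑ i, (∫ ω, X (τ ω) ω i ^ 2 ∂P) * Inf f i < Var f := by
  open Pool.Agent.H.MP_ebdc6e_an in
  have := P_prob
  refine ⟨2, fun y => if y 0 ∧ y 1 then 1 else -1, O, inferInstance, P, X, hX, Y, tau,
    fun v => if v 0 = -1 ∨ v 1 = -1 then -1 else 1, fun x => by dsimp only; split_ifs <;> simp, P_prob,
    ?_, fun ω => by simp [X], fun ω => ?_, Measurable.of_discrete, fun y => ?_, mart, stop, ?_,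
    fun _ => Integrable.of_finite, ?_⟩
  · rintro t ⟨a, b⟩ i
    unfold X
    split_ifs <;> fin_cases i <;> simp <;> (try split_ifs) <;> norm_num [abs_le]
  · refine tendsto_const_nhds.congr' ((eventually_ge_atTop 3).mono fun t ht => ?_)
    simp only [X, show t ≠ 0 by omega, show t ≠ 1 by omega, show t ≠ 2 by omega, if_false]
  · rw [← integral_indicator_one MeasurableSet.of_discrete, P_int]
    have : y = ![y 0, y 1] := by ext i; fin_cases i <;> rfl
    rw [this, Fintype.sum_prod_type, Fin.sum_univ_eight]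
    simp only [Fintype.sum_bool]
    cases y 0 <;> cases y 1 <;> simp [Y, Set.indicator] <;> norm_num
  · rintro ⟨a, b⟩
    fin_cases a <;> cases b <;> simp [X, Y, tau] <;> norm_num
  · have h : ∀ (i : Fin 2), Nat.card {x : Fin 2 → Bool // (if x 0 ∧ x 1 then (1 : ℝ) else -1) ≠
        (if Function.update x i (!x i) 0 ∧ Function.update x i (!x i) 1 then 1 else -1)} = 2 := by
      intro i
      have e : ∀ (p q : Prop) [Decidable p] [Decidable q],
          ((if p then (1 : ℝ) else -1) ≠ if q then 1 else -1) ↔ ¬ (p ↔ q) := by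
        intro p q _ _
        by_cases hp : p <;> by_cases hq : q <;> simp [hp, hq] <;> norm_num
      simp only [e, Nat.card_eq_fintype_card]
      fin_cases i <;> decide
    have s : ∀ g : (Fin 2 → Bool) → ℝ, ∑ x, g x =
        g ![true, true] + g ![true, false] + g ![false, true] + g ![false, false] := by
      intro g
      rw [← (piFinTwoEquiv fun _ => Bool).symm.sum_comp]
      simp [Fintype.sum_prod_type, piFinTwoEquiv, add_assoc]
    simp only [Inf, Var, h, P_int, s]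
    simp [Fintype.sum_prod_type, Fin.sum_univ_eight, X, Y, tau]
    norm_num

end Pool.Agent.Results.MP_ebdc6e_an.No
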